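import Pool.Agent.H15.TG.Targets

/-!
# CMB: combinatorics of exponents (helper23)
-/

set_option autoImplicit false

namespace Pool.Agent.H23.TG

open MvPolynomial Pool.Agent.H2.ST Pool.Agent.H15.TG

theorem pf_CMB : T_CMB := by
  intro n a b hn ha hb
  obtain ⟨i, -, hi⟩ := Finset.exists_max_image (Finset.univ : Finset (Fin (n + 1)))
    (fun i => ((b i : ℚ) - 1) / (a i)) ⟨0, Finset.mem_univ _⟩
  have hr : ∀ l, 0 ≤ (a l : ℤ) * ((b i : ℤ) - 1) - a i * ((b l : ℤ) - 1) := by
    intro l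
    have h1 := hi l (Finset.mem_univ _)
    have ha1 : (0 : ℚ) < a l := by exact_mod_cast ha l
    have ha2 : (0 : ℚ) < a i := by exact_mod_cast ha i
    rw [div_le_div_iff₀ ha1 ha2] at h1
    have h2 : ((b l : ℤ) - 1) * a i ≤ ((b i : ℤ) - 1) * a l := by exact_mod_cast h1
    linarith
  have hfin : ∃ (N : ℕ) (r : Fin (n + 1) → ℕ) (M : ℤ), 0 < N ∧ r i = 0 ∧
      ∀ l, (r l : ℤ) = -((N : ℤ) * ((b l : ℤ) - 1)) + M * (a l : ℤ) := by
    refine ⟨a i, fun l => ((a l : ℤ) * ((b i : ℤ) - 1) - a i * ((b l : ℤ) - 1)).toNat,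
      (b i : ℤ) - 1, ha i, ?_, fun l => ?_⟩
    · simp
    · rw [Int.toNat_of_nonneg (hr l)]
      ring
  have hai : (0 : ℤ) < a i := by exact_mod_cast ha i
  by_cases hz : ∃ j0, b j0 = 0
  · obtain ⟨j0, hj0⟩ := hz
    have hb1 : ∀ l, l ≠ j0 → b l ≠ 0 := fun l hl => by
      rcases hb l j0 hl with h | h
      · exact h
      · exact absurd hj0 h
    haveI : Nontrivial (Fin (n + 1)) := Fin.nontrivial_iff_two_le.mpr (by omega)
    obtain ⟨l, hl⟩ := exists_ne j0
    have hbi : 1 ≤ b i := by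
      have h1 := hr l
      have h2 : (1 : ℤ) ≤ b l := by
        have := hb1 l hl
        omega
      have h3 : (0 : ℤ) < a l := by exact_mod_cast ha l
      have h4 : 0 ≤ (a l : ℤ) * ((b i : ℤ) - 1) := by nlinarith
      have h5 : 0 ≤ (b i : ℤ) - 1 := nonneg_of_mul_nonneg_right h4 h3
      omega
    have hij : i ≠ j0 := by
      rintro rfl
      omega
    rcases Nat.lt_or_ge 1 (b i) with h | h
    · exact Or.inr ⟨j0, i, hb1, fun h' => absurd h' hij, fun _ => h, hfin⟩
    · left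
      refine ⟨j0, hj0, fun l hl => ?_⟩
      have h1 := hr l
      have h2 : (b i : ℤ) - 1 = 0 := by omega
      rw [h2] at h1
      have h3 : (a i : ℤ) * ((b l : ℤ) - 1) ≤ 0 := by linarith
      have h4 : (b l : ℤ) - 1 ≤ 0 := by
        by_contra hcon
        push Not at hcon
        nlinarith
      have := hb1 l hl
      omega
  · push Not at hz
    exact Or.inr ⟨i, i, fun l _ => hz l, fun _ => hz i, fun h => absurd rfl h, hfin⟩

end Pool.Agent.H23.TG
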