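import Pool.Agent.H15.TG.Targets

/-!
# UNL: integrally closed subalgebras of `k[t]` (helper23)
-/

set_option autoImplicit false

namespace Pool.Agent.H23.TG

open Polynomial Pool.Agent.H15.TG

private lemma swap_coeff {k : Type} [Field k] (P : Polynomial (Polynomial k)) (i n : ℕ) :
    ((Bivariate.swap P).coeff n).coeff i = (P.coeff i).coeff n := by
  induction P using Polynomial.induction_on' with
  | add p q hp hq => simp only [map_add, coeff_add, hp, hq]
  | monomial j a =>
    induction a using Polynomial.induction_on' with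
    | add p q hp hq => simp only [map_add, coeff_add, hp, hq]
    | monomial l r =>
      rw [Bivariate.swap_monomial_monomial]
      simp only [coeff_monomial]
      by_cases h1 : l = n
      · by_cases h2 : j = i
        · simp [h1, h2]
        · simp [h1, h2, coeff_monomial]
      · by_cases h2 : j = i
        · simp [h1, h2, coeff_monomial]
        · simp [h1, h2]

theorem pf_UNL : T_UNL := by
  intro k _ B hB hz
  classical
  obtain ⟨z, hzB, hz⟩ := hz
  have hz0 : z ≠ 0 := by
    rintro rfl
    simp at hz
  have hlc : z.leadingCoeff ≠ 0 := leadingCoeff_ne_zero.mpr hz0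
  -- a monic element
  set z1 : k[X] := C z.leadingCoeff⁻¹ * z with hz1
  have hz1m : z1.Monic := by
    rw [hz1, mul_comm]
    exact monic_mul_leadingCoeff_inv hz0
  have hz1B : z1 ∈ B := B.mul_mem (B.algebraMap_mem _) hzB
  have hz1d : 0 < z1.natDegree := by
    rw [hz1, natDegree_C_mul (inv_ne_zero hlc)]
    exact hz
  have hint : IsIntegral B (X : k[X]) := by
    refine ⟨map (algebraMap k B) z1 - C ⟨z1, hz1B⟩, ?_, ?_⟩
    · apply (hz1m.map _).sub_of_left
      rw [degree_map]
      refine degree_C_le.trans_lt ?_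
      rw [degree_eq_natDegree hz1m.ne_zero]
      exact_mod_cast hz1d
    · rw [← aeval_def, map_sub, aeval_map_algebraMap, aeval_X_left_apply, aeval_C]
      exact sub_self _
  set F := minpoly B (X : k[X]) with hF
  have hFm : F.Monic := minpoly.monic hint
  have hdvd : ∀ b : B, F ∣ map (algebraMap k B) (b : k[X]) - C b := by
    intro b
    apply minpoly.isIntegrallyClosed_dvd hint
    rw [map_sub, aeval_map_algebraMap, aeval_X_left_apply, aeval_C]
    exact sub_self _
  -- a nonconstant coefficient
  have hcoef : ∃ i, 0 < ((F.coeff i : B) : k[X]).natDegree := by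
    by_contra hcon
    push Not at hcon
    have hl : F ∈ lifts (algebraMap k B) := by
      rw [lifts_iff_coeff_lifts]
      intro n
      have h1 : ((F.coeff n : B) : k[X]).natDegree = 0 := Nat.le_zero.mp (hcon n)
      rw [natDegree_eq_zero] at h1
      obtain ⟨c, hc⟩ := h1
      exact ⟨c, Subtype.ext (by rw [← hc]; rfl)⟩
    rw [mem_lifts] at hl
    obtain ⟨F0, hF0⟩ := hl
    have h1 : aeval (X : k[X]) F = 0 := minpoly.aeval _ _
    rw [← hF0, aeval_map_algebraMap, aeval_X_left_apply] at h1
    rw [h1, Polynomial.map_zero] at hF0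
    exact hFm.ne_zero hF0.symm
  obtain ⟨i, hi⟩ := hcoef
  set gB : B := F.coeff i with hgB
  set g : k[X] := (gB : k[X]) with hg
  have hg0 : g ≠ 0 := by
    intro h
    rw [h] at hi
    simp at hi
  obtain ⟨G, hG⟩ := hdvd gB
  -- in the bivariate ring
  have hinj : Function.Injective (algebraMap B k[X]) := Subtype.val_injective
  set F' := map (algebraMap B k[X]) F with hF'
  set G' := map (algebraMap B k[X]) G with hG'
  have hprod : F' * G' = map C g - C g := by
    rw [hF', hG', ← Polynomial.map_mul, ← hG, Polynomial.map_sub, Polynomial.map_map, map_C]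
    rfl
  have hsw : Bivariate.swap F' * Bivariate.swap G' = C g - map C g := by
    rw [← map_mul, hprod, map_sub, Bivariate.swap_map_C, Bivariate.swap_C]
  have hmapd : (map (C : k →+* k[X]) g).natDegree = g.natDegree :=
    natDegree_map_eq_of_injective C_injective g
  have hCg : (C g : k[X][X]).natDegree < (map (C : k →+* k[X]) g).natDegree := by
    rw [natDegree_C, hmapd]; exact hi
  have hdeg : (C g - map (C : k →+* k[X]) g).natDegree = g.natDegree := by
    rw [natDegree_sub_eq_right_of_natDegree_lt hCg, hmapd]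
  have hlead : (C g - map (C : k →+* k[X]) g).leadingCoeff = -C g.leadingCoeff := by
    rw [leadingCoeff, hdeg, coeff_sub, coeff_C_of_ne_zero hi.ne', coeff_map, zero_sub]
    rfl
  have hne : (C g - map (C : k →+* k[X]) g) ≠ 0 := by
    intro h
    rw [h] at hdeg
    simp only [natDegree_zero] at hdeg
    omega
  have hA1 : Bivariate.swap F' ≠ 0 := fun h => hne (by rw [← hsw, h, zero_mul])
  have hA2 : Bivariate.swap G' ≠ 0 := fun h => hne (by rw [← hsw, h, mul_zero])
  have hd1 : g.natDegree ≤ (Bivariate.swap F').natDegree := by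
    apply le_natDegree_of_ne_zero
    intro h
    have h1 := swap_coeff F' i g.natDegree
    rw [h, coeff_zero, hF', coeff_map] at h1
    have h2 : (algebraMap B k[X] (F.coeff i)).coeff g.natDegree = g.leadingCoeff := rfl
    rw [h2] at h1
    exact (leadingCoeff_ne_zero.mpr hg0) h1.symm
  have hd2 : (Bivariate.swap G').natDegree = 0 := by
    have h1 := natDegree_mul hA1 hA2
    rw [hsw, hdeg] at h1
    omega
  obtain ⟨a2, ha2⟩ := natDegree_eq_zero.mp hd2
  have hunit : IsUnit a2 := by
    have h1 : (Bivariate.swap F').leadingCoeff * (Bivariate.swap G').leadingCoeff =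
        -C g.leadingCoeff := by
      rw [← leadingCoeff_mul, hsw, hlead]
    rw [← ha2, leadingCoeff_C] at h1
    have h2 : IsUnit (-C g.leadingCoeff : k[X]) :=
      (isUnit_C.mpr (isUnit_iff_ne_zero.mpr (leadingCoeff_ne_zero.mpr hg0))).neg
    rw [← h1] at h2
    exact isUnit_of_mul_isUnit_right h2
  obtain ⟨c, hc, hca⟩ := Polynomial.isUnit_iff.mp hunit
  have hc0 : c ≠ 0 := hc.ne_zero
  have hGc : G = C (algebraMap k B c) := by
    apply map_injective _ hinj
    show G' = _
    rw [map_C]
    have h1 : Bivariate.swap (Bivariate.swap G') = G' := Bivariate.swap_swap_apply _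
    rw [← h1, ← ha2, ← hca, Bivariate.swap_C_C]
    rfl
  -- the value at zero
  have hF0 : C (g.coeff 0) - g = ((F.eval 0 : B) : k[X]) * C c := by
    have h1 := congrArg (fun q => ((eval (0 : B) q : B) : k[X])) hG
    simp only [eval_sub, eval_C, eval_mul, hGc] at h1
    rw [eval_map_algebraMap] at h1
    have h2 : ((aeval (0 : B) ((gB : B) : k[X]) : B) : k[X]) = C (g.coeff 0) := by
      rw [← hg, ← coeff_zero_eq_aeval_zero']
      rfl
    rw [Subalgebra.coe_sub, Subalgebra.coe_mul, h2] at h1
    exact h1
  have hstep : ∀ b ∈ B, 0 < b.natDegree → ∃ q ∈ B, q.natDegree < b.natDegree ∧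
      b = C (b.coeff 0) + C c⁻¹ * (g - C (g.coeff 0)) * q := by
    intro b hb hbd
    obtain ⟨Q, hQ⟩ := hdvd ⟨b, hb⟩
    have h1 := congrArg (fun q => ((eval (0 : B) q : B) : k[X])) hQ
    simp only [eval_sub, eval_C, eval_mul] at h1
    rw [eval_map_algebraMap] at h1
    have h2 : ((aeval (0 : B) b : B) : k[X]) = C (b.coeff 0) := by
      rw [← coeff_zero_eq_aeval_zero']
      rfl
    rw [Subalgebra.coe_sub, Subalgebra.coe_mul, h2] at h1
    have h3 : ((F.eval 0 : B) : k[X]) = C c⁻¹ * (C (g.coeff 0) - g) := by
      rw [hF0]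
      have : (C c⁻¹ : k[X]) * C c = 1 := by rw [← C_mul, inv_mul_cancel₀ hc0, C_1]
      calc ((F.eval 0 : B) : k[X]) = (C c⁻¹ * C c) * ((F.eval 0 : B) : k[X]) := by
            rw [this, one_mul]
        _ = _ := by ring
    rw [h3] at h1
    set q : k[X] := ((Q.eval 0 : B) : k[X]) with hq
    have h4 : b = C (b.coeff 0) + C c⁻¹ * (g - C (g.coeff 0)) * q := by
      linear_combination -h1
    refine ⟨q, (Q.eval 0).2, ?_, h4⟩
    by_cases hq0 : q = 0
    · rw [hq0, natDegree_zero]; exact hbd
    · have h5 : (b - C (b.coeff 0)) = C c⁻¹ * ((g - C (g.coeff 0)) * q) := by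
        linear_combination h4
      have h6 : (b - C (b.coeff 0)).natDegree = b.natDegree := natDegree_sub_C
      have h7 : (g - C (g.coeff 0)).natDegree = g.natDegree := natDegree_sub_C
      have h8 : g - C (g.coeff 0) ≠ 0 := by
        intro h
        rw [h, natDegree_zero] at h7
        omega
      rw [h5, natDegree_C_mul (inv_ne_zero hc0), natDegree_mul h8 hq0, h7] at h6
      omega
  refine ⟨g, gB.2, ?_⟩
  have hind : ∀ N : ℕ, ∀ b ∈ B, b.natDegree ≤ N → b ∈ Algebra.adjoin k {g} := by
    intro N
    induction N with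
    | zero =>
      intro b _ hbd
      obtain ⟨c', hc'⟩ := natDegree_eq_zero.mp (Nat.le_zero.mp hbd)
      rw [← hc']
      exact Subalgebra.algebraMap_mem _ _
    | succ N ih =>
      intro b hb hbd
      rcases Nat.eq_zero_or_pos b.natDegree with h | h
      · obtain ⟨c', hc'⟩ := natDegree_eq_zero.mp h
        rw [← hc']
        exact Subalgebra.algebraMap_mem _ _
      · obtain ⟨q, hqB, hqd, hbq⟩ := hstep b hb h
        rw [hbq]
        have hgm : g ∈ Algebra.adjoin k {g} := Algebra.subset_adjoin rfl
        exact Subalgebra.add_mem _ (Subalgebra.algebraMap_mem _ _)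
          (Subalgebra.mul_mem _ (Subalgebra.mul_mem _ (Subalgebra.algebraMap_mem _ _)
            (Subalgebra.sub_mem _ hgm (Subalgebra.algebraMap_mem _ _))) (ih q hqB (by omega)))
  exact fun b hb => hind b.natDegree b hb le_rfl

end Pool.Agent.H23.TG
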