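import Pool.Agent.H15.TG.Targets

/-!
# ZFC: divisors in the polynomial ring (helper23)
-/

set_option autoImplicit false

namespace Pool.Agent.H23.TG

open MvPolynomial Pool.Agent.H2.ST Pool.Agent.H15.TG

/-- the weights of the coordinates under the full torus -/
private def wf (m : ℕ) : Fin m ⊕ Fin m → (Fin m → ℤ) :=
  Sum.elim (fun i => Pi.single i 1) (fun i => -Pi.single i 1)

private lemma gr_wf (k : Type) [Field k] (m : ℕ) :
    Gr (fun a : Fin m → ℤ => weightedHomogeneousSubmodule k (wf m) a) where
  one := isWeightedHomogeneous_one k (wf m)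
  mul := fun a b f g hf hg => IsWeightedHomogeneous.mul hf hg
  dec := by
    classical
    intro f
    have hc : ∀ a, weightedHomogeneousComponent (wf m) a f ≠ 0 →
        a ∈ f.support.image (Finsupp.weight (wf m)) := by
      intro a ha
      by_contra hcon
      apply ha
      ext d
      rw [coeff_weightedHomogeneousComponent, coeff_zero]
      split_ifs with h
      · by_contra h0
        apply hcon
        rw [Finset.mem_image]
        exact ⟨d, mem_support_iff.mpr h0, h⟩
      · rfl
    refine ⟨Finsupp.onFinset (f.support.image (Finsupp.weight (wf m)))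
      (fun a => weightedHomogeneousComponent (wf m) a f) hc, fun a => ?_, ?_⟩
    · exact weightedHomogeneousComponent_isWeightedHomogeneous (w := wf m) a f
    · rw [Finsupp.onFinset_sum _ (fun _ => rfl)]
      ext d
      rw [coeff_sum]
      simp only [coeff_weightedHomogeneousComponent]
      rw [Finset.sum_ite_eq]
      split_ifs with h
      · rfl
      · by_contra h0
        apply h
        rw [Finset.mem_image]
        exact ⟨d, mem_support_iff.mpr (fun h1 => h0 h1.symm), rfl⟩
  ind := by
    classical
    intro c hc hs
    ext a d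
    have h1 : coeff d (c.sum fun _ x => x) = 0 := by rw [hs, coeff_zero]
    rw [Finsupp.sum, coeff_sum] at h1
    by_cases ha : Finsupp.weight (wf m) d = a
    · by_cases hsup : a ∈ c.support
      · rw [Finset.sum_eq_single a] at h1
        · exact h1
        · intro b _ hb
          by_contra h2
          exact hb ((hc b h2).symm.trans ha)
        · intro h; exact absurd hsup h
      · rw [Finsupp.notMem_support_iff.mp hsup]
        rfl
    · by_contra h2
      exact ha (hc a h2)

theorem pf_ZFC (hFAC : T_FAC) : T_ZFC := by
  intro k _ m d w P Q χ hw hχ hP hPw hdvd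
  classical
  set H : Fin d → Pol k m := fun t => -∑ i, C ((w i t : ℤ) : k) *
    (X (Sum.inl i) * X (Sum.inr i) : Pol k m) with hH
  set E := aeval H Q with hE
  have hgr := gr_wf k m
  -- the substitution
  have hsub : ∀ i, w i ≠ 0 → (∀ φ : Pol k m →ₐ[k] MvPolynomial (Fin d) k,
      φ (X (Sum.inl i)) = 0 → φ (X (Sum.inr i)) = 0 → φ E = 0) → Q = 0 := by
    intro i hi hφ
    -- the left inverse
    let L : (Fin d → k) →ₗ[k] (Fin m → k) :=
      { toFun := fun l j => if j = i then 0 else ∑ t, l t * ((w j t : ℤ) : k)
        map_add' := by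
          intro l l'
          funext j
          simp only [Pi.add_apply]
          split_ifs
          · rw [add_zero]
          · rw [← Finset.sum_add_distrib]
            exact Finset.sum_congr rfl fun t _ => by ring
        map_smul' := by
          intro a l
          funext j
          simp only [Pi.smul_apply, smul_eq_mul, RingHom.id_apply]
          split_ifs
          · rw [mul_zero]
          · rw [Finset.mul_sum]
            exact Finset.sum_congr rfl fun t _ => by ring }
    have hL : ∀ l j, L l j = if j = i then 0 else ∑ t, l t * ((w j t : ℤ) : k) :=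
      fun l j => rfl
    have hker : LinearMap.ker L = ⊥ := by
      rw [LinearMap.ker_eq_bot']
      intro l hl
      apply hw i hi l
      intro j hj
      have h1 := congrFun hl j
      rw [hL, if_neg hj] at h1
      exact h1
    obtain ⟨g, hg⟩ := LinearMap.exists_leftInverse_of_injective L hker
    set B : Fin d → Fin m → k := fun t j => g (Pi.single j 1) t with hB
    have hBw : ∀ t t', ∑ j, (if j = i then 0 else ((w j t : ℤ) : k) * B t' j) =
        if t' = t then 1 else 0 := by
      intro t t'
      have h1 : g (L (Pi.single t 1)) = Pi.single t 1 := by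
        have := congrArg (fun f => f (Pi.single t 1)) hg
        exact this
      have h2 : L (Pi.single t 1) = ∑ j, (if j = i then 0 else ((w j t : ℤ) : k)) •
          (Pi.single j 1 : Fin m → k) := by
        funext j
        rw [hL, Finset.sum_apply]
        simp only [Pi.smul_apply, Pi.single_apply, smul_eq_mul, mul_ite, mul_one, mul_zero,
          ite_mul, one_mul, zero_mul, Finset.sum_ite_eq, Finset.mem_univ, if_true,
          Finset.sum_ite_eq']
      rw [h2, map_sum] at h1
      have h3 := congrFun h1 t'
      rw [Finset.sum_apply, Pi.single_apply] at h3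
      rw [← h3]
      refine Finset.sum_congr rfl fun j _ => ?_
      rw [map_smul, Pi.smul_apply, smul_eq_mul]
      split_ifs
      · rw [zero_mul]
      · rfl
    set φ : Pol k m →ₐ[k] MvPolynomial (Fin d) k :=
      aeval (Sum.elim (fun j => if j = i then 0 else -∑ t, C (B t j) * X t)
        (fun j => if j = i then 0 else 1)) with hφdef
    have hφ0 := hφ φ (by rw [hφdef, aeval_X]; simp) (by rw [hφdef, aeval_X]; simp)
    have hφH : ∀ t, φ (H t) = X t := by
      intro t
      rw [hH]
      simp only [map_neg, map_sum, map_mul]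
      have h1 : ∀ j, φ (C ((w j t : ℤ) : k)) * (φ (X (Sum.inl j)) * φ (X (Sum.inr j))) =
          -∑ t', C (if j = i then 0 else ((w j t : ℤ) : k) * B t' j) * X t' := by
        intro j
        rw [hφdef, aeval_X, aeval_X, aeval_C]
        simp only [Sum.elim_inl, Sum.elim_inr]
        by_cases hj : j = i
        · simp [hj]
        · simp only [if_neg hj, mul_one]
          rw [mul_neg, Finset.mul_sum]
          congr 1
          refine Finset.sum_congr rfl fun t' _ => ?_
          rw [C_mul, mul_assoc]
          rfl
      rw [Finset.sum_congr rfl fun j _ => h1 j, Finset.sum_neg_distrib, neg_neg,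
        Finset.sum_comm]
      have h2 : ∀ t' : Fin d, ∑ j : Fin m,
          (C (if j = i then 0 else ((w j t : ℤ) : k) * B t' j) : MvPolynomial (Fin d) k) * X t' =
          if t' = t then X t' else 0 := by
        intro t'
        rw [← Finset.sum_mul, ← map_sum, hBw]
        split_ifs <;> simp
      rw [Finset.sum_congr rfl fun t' _ => h2 t', Finset.sum_ite_eq', if_pos (Finset.mem_univ _)]
    have hφE : φ E = Q := by
      rw [hE]
      have h1 : φ (aeval H Q) = aeval (fun t => φ (H t)) Q := by
        have := congrArg (fun f => f Q) (comp_aeval (R := k) H φ)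
        exact this
      rw [h1]
      have h2 : (fun t => φ (H t)) = (X : Fin d → MvPolynomial (Fin d) k) := funext hφH
      rw [h2]
      exact aeval_X_left_apply Q
    rw [← hφE]
    exact hφ0
  obtain ⟨α, hα⟩ := MvPolynomial.support_nonempty.mpr hP
  have hαw := hPw α hα
  have hexi : ∃ i, ((α (Sum.inl i) : ℤ) - (α (Sum.inr i) : ℤ)) ≠ 0 ∧ w i ≠ 0 := by
    by_contra hcon
    push Not at hcon
    apply hχ
    rw [← hαw]
    unfold wtm
    apply Finset.sum_eq_zero
    intro i _
    by_cases h : ((α (Sum.inl i) : ℤ) - (α (Sum.inr i) : ℤ)) = 0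
    · rw [h, zero_smul]
    · rw [hcon i h, smul_zero]
  by_cases hE0 : E = 0
  · obtain ⟨i, _, hi⟩ := hexi
    exact hsub i hi fun φ _ _ => by rw [hE0, map_zero]
  -- homogeneity of the divisor
  obtain ⟨P', hP'⟩ := hdvd
  have hEm : E ∈ weightedHomogeneousSubmodule k (wf m) (0 : Fin m → ℤ) := by
    have h1 : E ∈ (aeval H : MvPolynomial (Fin d) k →ₐ[k] Pol k m).range := ⟨Q, rfl⟩
    rw [← Algebra.adjoin_range_eq_range_aeval] at h1
    have h2 : Algebra.adjoin k (Set.range H) ≤ zeroPart hgr := by
      apply Algebra.adjoin_le
      rintro _ ⟨t, rfl⟩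
      show H t ∈ weightedHomogeneousSubmodule k (wf m) (0 : Fin m → ℤ)
      rw [hH]
      apply Submodule.neg_mem
      apply Submodule.sum_mem
      intro i _
      have h3 : IsWeightedHomogeneous (wf m)
          (C ((w i t : ℤ) : k) * (X (Sum.inl i) * X (Sum.inr i) : Pol k m))
          (0 + ((wf m (Sum.inl i)) + (wf m (Sum.inr i)))) :=
        (isWeightedHomogeneous_C (wf m) _).mul
          ((isWeightedHomogeneous_X k (wf m) _).mul (isWeightedHomogeneous_X k (wf m) _))
      have h4 : (0 + ((wf m (Sum.inl i)) + (wf m (Sum.inr i)))) = 0 := by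
        simp [wf]
      rw [h4] at h3
      exact h3
    exact h2 h1
  have hEP : P * P' = E := hP'.symm
  obtain ⟨ε, _, hPε, _, _⟩ := hFAC k (Pol k m) (Fin m → ℤ)
    (fun a => weightedHomogeneousSubmodule k (wf m) a) hgr 0 P P' (by rw [hEP]; exact hEm)
    (by rw [hEP]; exact hE0)
  have hwt : ∀ β : Fin m ⊕ Fin m →₀ ℕ, ∀ i,
      Finsupp.weight (wf m) β i = (β (Sum.inl i) : ℤ) - β (Sum.inr i) := by
    intro β i
    rw [Finsupp.weight_apply, Finsupp.sum_fintype _ _ (fun _ => by simp)]
    rw [Finset.sum_apply, Fintype.sum_sum_type]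
    simp [wf, Pi.single_apply, sub_eq_add_neg]
  have hεβ : ∀ β ∈ P.support, ∀ i, (β (Sum.inl i) : ℤ) - β (Sum.inr i) = ε i := by
    intro β hβ i
    rw [← hwt]
    exact congrFun (hPε (mem_support_iff.mp hβ)) i
  obtain ⟨i, hαi, hi⟩ := hexi
  apply hsub i hi
  intro φ h1 h2
  rw [← hEP, map_mul]
  have h3 : φ P = 0 := by
    rw [P.as_sum, map_sum]
    apply Finset.sum_eq_zero
    intro β hβ
    have h4 := hεβ β hβ i
    have h5 := hεβ α hα i
    rw [monomial_eq, map_mul, Finsupp.prod, map_prod]
    rcases Nat.eq_zero_or_pos (β (Sum.inl i)) with h6 | h6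
    · have h7 : β (Sum.inr i) ≠ 0 := by
        intro h7
        rw [h6, h7] at h4
        apply hαi
        rw [h5, ← h4]
        simp
      rw [Finset.prod_eq_zero (Finsupp.mem_support_iff.mpr h7)
        (by rw [map_pow, h2, zero_pow h7]), mul_zero]
    · rw [Finset.prod_eq_zero (Finsupp.mem_support_iff.mpr h6.ne')
        (by rw [map_pow, h1, zero_pow h6.ne']), mul_zero]
  rw [h3, zero_mul]

end Pool.Agent.H23.TG
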