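import Pool.Agent.H15.TG.Targets

/-!
# REB: projection to the torus acting on the rest (helper23)
-/

set_option autoImplicit false

namespace Pool.Agent.H23.TG

open MvPolynomial Pool.Agent.H2.ST Pool.Agent.H15.TG

theorem pf_REB : T_REB := by
  intro k _ _ n w c _ hc hrel huniq d hd
  classical
  obtain ⟨i0, hi0⟩ : ∃ i0, c i0 ≠ 0 := by
    by_contra h
    push Not at h
    exact hc (funext h)
  -- the matrix of the other vectors
  set A : Matrix (Fin n) (Fin n) ℤ := Matrix.of fun j s => w (i0.succAbove s) j with hA
  have hAmul : ∀ f : Fin n → ℤ, A.mulVec f = ∑ s, f s • w (i0.succAbove s) := by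
    intro f
    funext j
    simp only [Matrix.mulVec, dotProduct, hA, Matrix.of_apply, Finset.sum_apply, Pi.smul_apply,
      smul_eq_mul]
    exact Finset.sum_congr rfl fun s _ => mul_comm _ _
  have hdet : A.det ≠ 0 := by
    intro h0
    obtain ⟨f, hf0, hf⟩ := Matrix.exists_mulVec_eq_zero_iff.mpr h0
    rw [hAmul] at hf
    apply hf0
    obtain ⟨N, M, hM, hNM⟩ := huniq (Fin.insertNth i0 0 f) (by
      rw [Fin.sum_univ_succAbove _ i0]
      simp only [Fin.insertNth_apply_same, zero_smul, zero_add, Fin.insertNth_apply_succAbove]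
      exact hf)
    have h1 := hNM i0
    rw [Fin.insertNth_apply_same, mul_zero] at h1
    have hN : N = 0 := by
      rcases mul_eq_zero.mp h1.symm with h | h
      · exact h
      · exact absurd h hi0
    funext s
    have h2 := hNM (i0.succAbove s)
    rw [Fin.insertNth_apply_succAbove, hN, zero_mul] at h2
    rcases mul_eq_zero.mp h2 with h | h
    · exact absurd h hM
    · exact h
  set D := A.det with hD
  -- the index set
  have hcard : Fintype.card {t : Fin n // c (i0.succAbove t) ≠ 0} = d := by
    have h1 : Nat.card {i // c i ≠ 0} = ∑ i, if c i ≠ 0 then 1 else 0 := by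
      rw [Nat.card_eq_fintype_card, Fintype.card_subtype, Finset.card_filter]
    have h2 : Fintype.card {t : Fin n // c (i0.succAbove t) ≠ 0} =
        ∑ t : Fin n, if c (i0.succAbove t) ≠ 0 then 1 else 0 := by
      rw [Fintype.card_subtype, Finset.card_filter]
    rw [Fin.sum_univ_succAbove _ i0, if_pos hi0] at h1
    rw [h2]
    omega
  set ε : {t : Fin n // c (i0.succAbove t) ≠ 0} ≃ Fin d := Fintype.equivFinOfCardEq hcard with hε
  -- the projection
  let Θ : (Fin n → ℤ) →+ (Fin d → ℤ) :=
    { toFun := fun v t => (A.adjugate.mulVec v) (ε.symm t).1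
      map_zero' := by
        funext t
        rw [Matrix.mulVec_zero]
        rfl
      map_add' := by
        intro v v'
        funext t
        rw [Matrix.mulVec_add]
        rfl }
  have hΘ : ∀ v t, Θ v t = (A.adjugate.mulVec v) (ε.symm t).1 := fun v t => rfl
  have hadj : ∀ f : Fin n → ℤ, A.adjugate.mulVec (∑ s, f s • w (i0.succAbove s)) = D • f := by
    intro f
    rw [← hAmul, Matrix.mulVec_mulVec, Matrix.adjugate_mul, Matrix.smul_mulVec,
      Matrix.one_mulVec]
  have hws : ∀ s t, Θ (w (i0.succAbove s)) t = if (ε.symm t).1 = s then D else 0 := by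
    intro s t
    have h1 := hadj (Pi.single s 1)
    have h2 : ∑ u, (Pi.single s 1 : Fin n → ℤ) u • w (i0.succAbove u) = w (i0.succAbove s) := by
      rw [Finset.sum_eq_single s]
      · rw [Pi.single_eq_same, one_smul]
      · intro b _ hb
        rw [Pi.single_eq_of_ne hb, zero_smul]
      · intro h; exact absurd (Finset.mem_univ _) h
    rw [h2] at h1
    rw [hΘ, h1, Pi.smul_apply, Pi.single_apply, smul_eq_mul]
    split_ifs <;> simp
  have hcw : c i0 • w i0 = -∑ s, c (i0.succAbove s) • w (i0.succAbove s) := by
    rw [Fin.sum_univ_succAbove _ i0] at hrel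
    exact eq_neg_of_add_eq_zero_left hrel
  have hw0 : ∀ t, c i0 * Θ (w i0) t = -(D * c (i0.succAbove (ε.symm t).1)) := by
    intro t
    have h1 : Θ (c i0 • w i0) t = c i0 * Θ (w i0) t := by
      rw [map_zsmul]
      rfl
    rw [← h1, hcw, map_neg, Pi.neg_apply, hΘ, hadj fun s => c (i0.succAbove s)]
    rfl
  refine ⟨Θ, ?_, ?_, ?_, ?_⟩
  · intro i hi
    have hne : i ≠ i0 := by
      rintro rfl
      exact hi0 hi
    obtain ⟨s, rfl⟩ := Fin.exists_succAbove_eq hne
    funext t
    rw [hws, if_neg]
    · rfl
    · intro h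
      apply (ε.symm t).2
      rw [h]
      exact hi
  · intro l hl
    funext t
    have h1 := hl (i0.succAbove (ε.symm t).1)
    rw [Finset.sum_eq_single t] at h1
    · rw [hws, if_pos rfl] at h1
      rcases mul_eq_zero.mp h1 with h | h
      · exact h
      · exact absurd (Int.cast_eq_zero.mp h) hdet
    · intro u _ hu
      rw [hws, if_neg]
      · simp
      · intro h
        apply hu
        exact ε.symm.injective (Subtype.ext h)
    · intro h; exact absurd (Finset.mem_univ _) h
  · intro e he hz
    set v := ∑ i, e i • w i with hv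
    set f : Fin n → ℤ := fun s => c i0 * e (i0.succAbove s) - e i0 * c (i0.succAbove s) with hf
    have h1 : c i0 • v = ∑ s, f s • w (i0.succAbove s) := by
      rw [hv, Fin.sum_univ_succAbove _ i0, smul_add, smul_comm, hcw, smul_neg, Finset.smul_sum,
        Finset.smul_sum, neg_add_eq_sub, ← Finset.sum_sub_distrib]
      refine Finset.sum_congr rfl fun s _ => ?_
      rw [hf, sub_smul, mul_smul, mul_smul]
    have h2 : Θ (c i0 • v) = 0 := by rw [map_zsmul, hz, smul_zero]
    have h3 : ∀ s, f s = 0 := by
      intro s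
      by_cases hs : c (i0.succAbove s) = 0
      · rw [hf]
        simp only
        rw [he _ hs, hs]
        ring
      · have h4 := congrFun h2 (ε ⟨s, hs⟩)
        rw [h1, hΘ, hadj, Equiv.symm_apply_apply] at h4
        have h5 : D * f s = 0 := h4
        rcases mul_eq_zero.mp h5 with h | h
        · exact absurd h hdet
        · exact h
    have h4 : c i0 • v = 0 := by
      rw [h1]
      exact Finset.sum_eq_zero fun s _ => by rw [h3 s, zero_smul]
    exact (smul_eq_zero.mp h4).resolve_left hi0
  · intro hd0 i hi hz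
    by_cases hne : i = i0
    · subst hne
      have h1 := hw0 ⟨0, hd0⟩
      rw [hz, Pi.zero_apply, mul_zero] at h1
      have h2 : D * c (i.succAbove (ε.symm ⟨0, hd0⟩).1) = 0 := by linarith
      rcases mul_eq_zero.mp h2 with h | h
      · exact hdet h
      · exact (ε.symm ⟨0, hd0⟩).2 h
    · obtain ⟨s, rfl⟩ := Fin.exists_succAbove_eq hne
      have h1 := congrFun hz (ε ⟨s, hi⟩)
      rw [hws, Equiv.symm_apply_apply, if_pos rfl] at h1
      exact hdet h1

end Pool.Agent.H23.TG
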